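import Pool.Agent.Run7.h694.TW.A

/-! Inverse limits and toral skew products (helper694). -/

set_option autoImplicit false
set_option linter.unusedSectionVars false

open Filter Topology MeasureTheory ProbabilityTheory Set
open scoped ENNReal symmDiff

noncomputable section

namespace Run7.h694.TW

open Pool.Agent.W761.Gauss (BM BM_of_memLp)
open Pool.Agent.W761.Tail

section lim

variable {m : ℕ} {X : Type} [mX : MeasurableSpace X] {μ : Measure X} {T : X → X}

/-- Approximation of functions, first form. -/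
theorem lim_approx₁ [IsProbabilityMeasure μ] {𝓑 : ℕ → MeasurableSpace X} (hle : ∀ i, 𝓑 i ≤ mX)
    (hmono : Monotone 𝓑) (hgen : ∀ B, MeasurableSet[mX] B → ∀ ε : ℝ, 0 < ε → ∃ (i : ℕ) (C : Set X),
      MeasurableSet[𝓑 i] C ∧ μ.real (B ∆ C) ≤ ε) {f : X → ℂ} (hf : Integrable f μ) :
    ∀ ε : ℝ, 0 < ε → ∃ i₀ : ℕ, ∀ i, i₀ ≤ i → ∃ g : X → ℂ, Measurable[𝓑 i] g ∧ Integrable g μ ∧
      ∫ x, ‖f x - g x‖ ∂μ ≤ ε := by
  refine Integrable.induction (P := fun f => ∀ ε : ℝ, 0 < ε → ∃ k₀ : ℕ, ∀ k, k₀ ≤ k →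
    ∃ g : X → ℂ, Measurable[𝓑 k] g ∧ Integrable g μ ∧ ∫ x, ‖f x - g x‖ ∂μ ≤ ε)
    ?_ ?_ ?_ ?_ hf
  · intro c s hs _ ε hε
    obtain ⟨k₀, C, hC, hsC⟩ := hgen s hs (ε / (‖c‖ + 1)) (by positivity)
    refine ⟨k₀, fun k hk => ⟨C.indicator fun _ => c, ?_, ?_, ?_⟩⟩
    · exact measurable_const.indicator (hmono hk _ hC)
    · exact (integrable_const c).indicator (hle _ _ hC)
    · have h2 : ∀ x, ‖s.indicator (fun _ => c) x - C.indicator (fun _ => c) x‖ =
          ((s ∆ C).indicator fun _ => ‖c‖) x := by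
        intro x
        have hm : x ∈ s ∆ C ↔ (x ∈ s ∧ ¬ x ∈ C) ∨ (x ∈ C ∧ ¬ x ∈ s) := Iff.rfl
        by_cases a : x ∈ s <;> by_cases b : x ∈ C
        · rw [Set.indicator_of_mem a, Set.indicator_of_mem b,
            Set.indicator_of_notMem (by rw [hm]; tauto), sub_self, norm_zero]
        · rw [Set.indicator_of_mem a, Set.indicator_of_notMem b,
            Set.indicator_of_mem (hm.mpr (Or.inl ⟨a, b⟩)), sub_zero]
        · rw [Set.indicator_of_notMem a, Set.indicator_of_mem b,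
            Set.indicator_of_mem (hm.mpr (Or.inr ⟨b, a⟩)), zero_sub, norm_neg]
        · rw [Set.indicator_of_notMem a, Set.indicator_of_notMem b,
            Set.indicator_of_notMem (by rw [hm]; tauto), sub_self, norm_zero]
      simp only [h2]
      have h3 : MeasurableSet (s ∆ C) := hs.symmDiff (hle _ _ hC)
      rw [integral_indicator_const _ h3, smul_eq_mul]
      calc μ.real (s ∆ C) * ‖c‖ ≤ ε / (‖c‖ + 1) * (‖c‖ + 1) :=
            mul_le_mul hsC (by linarith) (norm_nonneg _) (by positivity)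
        _ = ε := by field_simp
  · intro f g _ hf hg ihf ihg ε hε
    obtain ⟨k₁, h1⟩ := ihf (ε / 2) (by positivity)
    obtain ⟨k₂, h2⟩ := ihg (ε / 2) (by positivity)
    refine ⟨max k₁ k₂, fun k hk => ?_⟩
    obtain ⟨u, hu, hui, hfu⟩ := h1 k ((le_max_left _ _).trans hk)
    obtain ⟨v, hv, hvi, hgv⟩ := h2 k ((le_max_right _ _).trans hk)
    refine ⟨fun x => u x + v x, hu.add hv, hui.add hvi, ?_⟩
    have i1 : Integrable (fun x => ‖f x - u x‖) μ := (hf.sub hui).norm
    have i2 : Integrable (fun x => ‖g x - v x‖) μ := (hg.sub hvi).norm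
    calc ∫ x, ‖(f + g) x - (u x + v x)‖ ∂μ ≤
          ∫ x, (‖f x - u x‖ + ‖g x - v x‖) ∂μ := by
          apply integral_mono ((hf.add hg).sub (hui.add hvi)).norm (i1.add i2)
          intro x
          show ‖f x + g x - (u x + v x)‖ ≤ _
          rw [add_sub_add_comm]
          exact norm_add_le _ _
      _ = _ := integral_add i1 i2
      _ ≤ ε := by linarith
  · rw [isClosed_iff_clusterPt]
    intro F hF ε hε
    rw [← mem_closure_iff_clusterPt, Metric.mem_closure_iff] at hF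
    obtain ⟨G, hG, hFG⟩ := hF (ε / 2) (by positivity)
    obtain ⟨k₀, h1⟩ := hG (ε / 2) (by positivity)
    refine ⟨k₀, fun k hk => ?_⟩
    obtain ⟨g, hg, hgi, hGg⟩ := h1 k hk
    refine ⟨g, hg, hgi, ?_⟩
    have iF : Integrable (F : X → ℂ) μ := L1.integrable_coeFn F
    have iG : Integrable (G : X → ℂ) μ := L1.integrable_coeFn G
    have i1 : Integrable (fun x => ‖F x - G x‖) μ := (iF.sub iG).norm
    have i2 : Integrable (fun x => ‖G x - g x‖) μ := (iG.sub hgi).norm
    have h5 : ∫ x, ‖F x - G x‖ ∂μ ≤ ε / 2 := by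
      have h6 : ∫ x, ‖F x - G x‖ ∂μ = dist F G := by
        rw [dist_eq_norm, L1.norm_eq_integral_norm]
        apply integral_congr_ae
        filter_upwards [Lp.coeFn_sub F G] with x hx
        rw [hx]
        rfl
      rw [h6]
      exact hFG.le
    calc ∫ x, ‖F x - g x‖ ∂μ ≤
          ∫ x, (‖F x - G x‖ + ‖G x - g x‖) ∂μ := by
          apply integral_mono (iF.sub hgi).norm (i1.add i2)
          intro x
          exact norm_sub_le_norm_sub_add_norm_sub _ _ _
      _ = _ := integral_add i1 i2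
      _ ≤ ε := by linarith
  · intro f g hfg hf ih ε hε
    obtain ⟨k₀, h1⟩ := ih ε hε
    refine ⟨k₀, fun k hk => ?_⟩
    obtain ⟨u, hu, hui, hfu⟩ := h1 k hk
    refine ⟨u, hu, hui, le_trans (le_of_eq ?_) hfu⟩
    apply integral_congr_ae
    filter_upwards [hfg] with x hx
    rw [hx]

/-- Approximation of functions, second form. -/
theorem lim_approx [IsProbabilityMeasure μ] {𝓑 : ℕ → MeasurableSpace X} (hle : ∀ i, 𝓑 i ≤ mX)
    (hmono : Monotone 𝓑) (hgen : ∀ B, MeasurableSet[mX] B → ∀ ε : ℝ, 0 < ε → ∃ (i : ℕ) (C : Set X),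
      MeasurableSet[𝓑 i] C ∧ μ.real (B ∆ C) ≤ ε) {f : X → ℂ} (hf : Measurable f) {C : ℝ} (hC0 : 0 ≤ C)
    (hC : ∀ x, ‖f x‖ ≤ C) (ε : ℝ) (hε : 0 < ε) : ∃ k₀ : ℕ, ∀ k, k₀ ≤ k →
      ∃ g : X → ℂ, Measurable[𝓑 k] g ∧ (∀ x, ‖g x‖ ≤ C) ∧ ∫ x, ‖f x - g x‖ ∂μ ≤ ε := by
  have hfi : Integrable f μ := Integrable.of_bound hf.aestronglyMeasurable C
    (Eventually.of_forall hC)
  obtain ⟨k₀, h1⟩ := lim_approx₁ hle hmono hgen hfi (ε / 2) (by positivity)
  refine ⟨k₀, fun k hk => ?_⟩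
  obtain ⟨g, hg, hgi, hfg⟩ := h1 k hk
  have hgm : Measurable g := hg.mono (hle k) le_rfl
  refine ⟨fun x => rad C (g x), rad_meas hg C, fun x => rad_norm hC0 _, ?_⟩
  have i1 : Integrable (fun x => rad C (g x)) μ :=
    Integrable.of_bound (rad_meas hgm C).aestronglyMeasurable C
      (Eventually.of_forall fun x => rad_norm hC0 _)
  calc ∫ x, ‖f x - rad C (g x)‖ ∂μ ≤ ∫ x, 2 * ‖f x - g x‖ ∂μ := by
        apply integral_mono (hfi.sub i1).norm ((hfi.sub hgi).norm.const_mul 2)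
        intro x
        exact rad_dist hC0 (hC _) _
    _ = 2 * ∫ x, ‖f x - g x‖ ∂μ := integral_const_mul _ _
    _ ≤ ε := by linarith

/-- functions measurable with respect to a factor -/
theorem fac_fun {Z : Type} [mZ : MeasurableSpace Z] {φ : X → Z} {C : ℝ} {g : X → ℂ}
    (hg : Measurable[mZ.comap φ] g) (hC : ∀ x, ‖g x‖ ≤ C) :
    ∃ w : Z → ℂ, BM w ∧ ∀ x, g x = w (φ x) := by
  obtain ⟨w, hw, rfl⟩ := StronglyMeasurable.exists_eq_measurable_comp (mY := mZ)
    hg.stronglyMeasurable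
  refine ⟨fun z => if ‖w z‖ ≤ C then w z else 0, ⟨trunc_meas hw.measurable C, |C|, fun z => ?_⟩, ?_⟩
  · show ‖if ‖w z‖ ≤ C then w z else 0‖ ≤ |C|
    split_ifs with h
    · exact h.trans (le_abs_self _)
    · simp
  · intro x
    have hx' := hC x
    rw [Function.comp_apply] at hx' ⊢
    show w (φ x) = if ‖w (φ x)‖ ≤ C then w (φ x) else 0
    rw [if_pos hx']

/-- inverse limits -/
theorem Cl.limit [IsProbabilityMeasure μ] (hT : MeasurePreserving T μ μ) {Z : ℕ → Type}
    [mZ : ∀ i, MeasurableSpace (Z i)] {ρ : ∀ i, Measure (Z i)} {R : ∀ i, Z i → Z i}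
    (hR : ∀ i, Measurable (R i)) {π : ∀ i, X → Z i} (hπ : ∀ i, MeasurePreserving (π i) μ (ρ i))
    (hπT : ∀ i, ∀ᵐ x ∂μ, π i (T x) = R i (π i x))
    (hmono : ∀ i, (mZ i).comap (π i) ≤ (mZ (i + 1)).comap (π (i + 1)))
    (hgen : ∀ B, MeasurableSet B → ∀ ε : ℝ, 0 < ε → ∃ (i : ℕ) (D : Set (Z i)),
      MeasurableSet D ∧ μ.real (B ∆ (π i ⁻¹' D)) ≤ ε)
    (h : ∀ i, Cl m (ρ i) (R i)) : Cl m μ T := by
  intro f hf
  choose hfm CF hCF using hf
  set D : ℝ := ∑ l, |CF l| with hD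
  have hS : 0 ≤ D := Finset.sum_nonneg fun _ _ => abs_nonneg _
  have hfD : ∀ l x, ‖f l x‖ ≤ D := fun l x => ((hCF l x).trans (le_abs_self _)).trans
    (Finset.single_le_sum (f := fun l => |CF l|) (fun _ _ => abs_nonneg _) (Finset.mem_univ l))
  refine Cvg_closed hT hfm hfD fun ε hε => ?_
  have hmono' : Monotone fun i => (mZ i).comap (π i) := monotone_nat_of_le_succ hmono
  choose k₀ hk₀ using fun l => lim_approx (𝓑 := fun i => (mZ i).comap (π i))
    (fun i => (hπ i).measurable.comap_le) hmono' (fun B hB ε hε => by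
      obtain ⟨i, D, hD, hle⟩ := hgen B hB ε hε
      exact ⟨i, π i ⁻¹' D, ⟨D, hD, rfl⟩, hle⟩) (hfm l) hS (hfD l) ε hε
  set k := ∑ l, k₀ l with hk
  have hkl : ∀ l, k₀ l ≤ k := fun l => Finset.single_le_sum (f := k₀)
    (fun _ _ => Nat.zero_le _) (Finset.mem_univ l)
  choose g hg hgD hfg using fun l => hk₀ l k (hkl l)
  choose w hw hgw using fun l => fac_fun (hg l) (hgD l)
  refine ⟨0, g, fun l => (hg l).mono (hπ k).measurable.comap_le le_rfl, hgD, fun l => hfg l, ?_⟩
  have h3 : Cvg μ T (fun j => w j ∘ π k) :=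
    (Cvg_factor hT (hR k) (hπ k) (hπT k) fun j => (hw j).1).mpr (h k w hw)
  have e : g = fun j => w j ∘ π k := by
    funext j x
    exact hgw j x
  rw [e]
  exact h3

end lim

section toral

open Pool.Agent.H922R3.TA (skewMap haarT toralMap Indep Good all_skew skew_iter skew_mp skew_meas)

theorem shift_avg {u : ℕ → ℂ} {C : ℝ} (hb : ∀ n, ‖u n‖ ≤ C) {L : ℂ}
    (h : Tendsto (fun N : ℕ => (N : ℂ)⁻¹ * ∑ n ∈ Finset.range N, u (n + 1)) atTop (𝓝 L)) :
    Tendsto (fun N : ℕ => (N : ℂ)⁻¹ * ∑ n ∈ Finset.range N, u n) atTop (𝓝 L) := by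
  have h7 : Tendsto (fun N : ℕ => (N : ℂ)⁻¹ * (u 0 - u N)) atTop (𝓝 0) := by
    rw [tendsto_zero_iff_norm_tendsto_zero]
    have hlim : Tendsto (fun N : ℕ => (N : ℝ)⁻¹ * (2 * C)) atTop (𝓝 0) := by
      have := (tendsto_inv_atTop_nhds_zero_nat (𝕜 := ℝ)).mul_const (2 * C)
      rwa [zero_mul] at this
    refine squeeze_zero (fun N => norm_nonneg _) (fun N => ?_) hlim
    rw [norm_mul, norm_inv, Complex.norm_natCast]
    refine mul_le_mul_of_nonneg_left ?_ (by positivity)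
    refine (norm_sub_le _ _).trans ?_
    linarith [hb 0, hb N]
  have h8 := h.add h7
  rw [add_zero] at h8
  refine h8.congr fun N => ?_
  rw [← mul_add]
  congr 1
  have h5 := Finset.sum_range_succ' u N
  have h6 := Finset.sum_range_succ u N
  rw [h6] at h5
  linear_combination -h5

variable {m d : ℕ} {Y : Type} [MeasurableSpace Y] {ν : Measure Y} [IsProbabilityMeasure ν]

lemma toralMap_mul (M N : Matrix (Fin d) (Fin d) ℤ) (x : UnitAddTorus (Fin d)) :
    toralMap (M * N) x = toralMap M (toralMap N x) := by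
  funext i
  simp only [toralMap, Matrix.mul_apply, Finset.sum_smul, Finset.smul_sum, mul_smul]
  rw [Finset.sum_comm]

lemma toral_iter (M : Matrix (Fin d) (Fin d) ℤ) (n : ℕ) :
    (toralMap M)^[n] = toralMap (M ^ n) := by
  induction n with
  | zero =>
    funext x i
    show x i = ∑ k, (1 : Matrix (Fin d) (Fin d) ℤ) i k • x k
    rw [Finset.sum_eq_single i]
    · simp
    · intro k _ hk
      rw [Matrix.one_apply_ne (Ne.symm hk), zero_smul]
    · intro h
      exact absurd (Finset.mem_univ i) h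
  | succ n ih =>
    funext x
    rw [Function.iterate_succ_apply', ih, pow_succ', toralMap_mul]

theorem Cl.toral {M : Matrix (Fin d) (Fin d) ℤ} (hM : M.det ≠ 0) {S : Y → Y}
    (hS : MeasurePreserving S ν ν) {φ : Y → UnitAddTorus (Fin d)} (hφ : Measurable φ)
    (hI : Indep (fun j : Fin m => M ^ ((j : ℕ) + 1)) ∨ ∀ y, φ y = 0)
    (hY : ∀ q : ℕ, 1 ≤ q → Cl m ν S^[q]) : Cl m (ν.prod (haarT d)) (skewMap M S φ) := by
  intro g hg
  let A' : Fin m → Matrix (Fin d) (Fin d) ℤ := fun j => M ^ ((j : ℕ) + 1)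
  let S' : Fin m → Y → Y := fun j => S^[(j : ℕ) + 1]
  let φ' : Fin m → Y → UnitAddTorus (Fin d) := fun j y => ((skewMap M S φ)^[(j : ℕ) + 1] (y, 0)).2
  have hT := skew_mp hM hS hφ
  have hsk : ∀ j, skewMap (A' j) (S' j) (φ' j) = (skewMap M S φ)^[(j : ℕ) + 1] := by
    intro j
    funext z
    obtain ⟨y, x⟩ := z
    rw [skew_iter, toral_iter]
    rfl
  have h0 : ∀ n : ℕ, ∀ y, (∀ y, φ y = 0) → ((skewMap M S φ)^[n] (y, 0)).2 = 0 := by
    intro n
    induction n with
    | zero => intro y _; rfl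
    | succ n ih =>
      intro y hφ0
      rw [Function.iterate_succ_apply']
      show toralMap M _ + φ _ = 0
      rw [ih y hφ0, hφ0, add_zero]
      funext i
      simp [toralMap]
  have hgood : ∀ q : ℕ, 1 ≤ q → Good ν fun j => (S' j)^[q] := by
    intro q hq h hm hb
    choose C hC using hb
    filter_upwards [hY q hq h fun j => ⟨hm j, C j, hC j⟩] with y hy
    obtain ⟨L, hL⟩ := hy
    refine ⟨L, ?_⟩
    have e1 : ∀ n, ∏ j, h j (((S' j)^[q])^[n] y) = ∏ j, h j (S^[((j : ℕ) + 1) * q * n] y) := by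
      intro n
      refine Finset.prod_congr rfl fun j _ => ?_
      show h j (((S^[(j : ℕ) + 1])^[q])^[n] y) = _
      rw [← Function.iterate_mul, ← Function.iterate_mul, mul_assoc]
    simp only [e1]
    refine shift_avg (u := fun n => ∏ j, h j (S^[((j : ℕ) + 1) * q * n] y))
      (C := ∏ j, C j) (fun n => ?_) ?_
    · rw [norm_prod]
      exact Finset.prod_le_prod (fun _ _ => norm_nonneg _) fun j _ => hC j _
    · refine hL.congr fun N => ?_
      unfold A term
      congr 1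
      refine Finset.sum_congr rfl fun n _ => Finset.prod_congr rfl fun j _ => ?_
      rw [← Function.iterate_mul]
      congr 2
      ring
  have hmain := all_skew (ν := ν) (A := A') (fun j => by
      show (M ^ ((j : ℕ) + 1)).det ≠ 0
      rw [Matrix.det_pow]
      exact pow_ne_zero _ hM) (S := S') (fun j => hS.iterate _) (φ := φ')
    (fun j => measurable_snd.comp ((hT.measurable.iterate _).comp
      (measurable_id.prodMk measurable_const))) (hI.imp id fun h j y => h0 _ y h)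
    (Or.inr hgood) (F := fun j z => g j ((skewMap M S φ)^[(j : ℕ) + 1] z)) fun j => by
      obtain ⟨hm, C, hC⟩ := hg j
      exact ⟨hm.comp (hT.measurable.iterate _), C, fun z => hC _⟩
  filter_upwards [hmain] with z hz
  obtain ⟨L, hL⟩ := hz
  refine ⟨L, hL.congr fun N => ?_⟩
  unfold A term Pool.Agent.H922R3.TA.Av
  congr 1
  refine Finset.sum_congr rfl fun n _ => Finset.prod_congr rfl fun j _ => ?_
  show g j ((skewMap M S φ)^[(j : ℕ) + 1] ((skewMap (A' j) (S' j) (φ' j))^[n] z)) = _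
  rw [hsk, ← Function.iterate_mul, ← Function.iterate_add_apply]
  congr 2
  ring

end toral

end Run7.h694.TW
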