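import Pool.Agent.TH290.RM.Base
import Pool.Agent.TH739.Pois.Joint
import Pool.Agent.TH784.AA.Fin
import Pool.Agent.H922R3.TA.Skew
import Pool.Agent.W761.Tail.Main

/-! Systems for which the averages along `n, 2n, …, mn` converge almost everywhere: closure properties
(helper694). -/

set_option autoImplicit false
set_option linter.unusedSectionVars false

open Filter Topology MeasureTheory ProbabilityTheory
open scoped ENNReal symmDiff

noncomputable section

namespace Run7.h694.TW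

open Pool.Agent.W761.Gauss (BM BM_of_memLp)
open Pool.Agent.W761.Tail
open Pool.Agent.TH739.PS (ConvAll)

/-- convergence for all bounded measurable functions -/
def Cl (m : ℕ) {X : Type} [MeasurableSpace X] (μ : Measure X) (T : X → X) : Prop :=
  ∀ g : Fin m → X → ℂ, (∀ j, BM (g j)) → Cvg μ T g

variable {m : ℕ} {X Y Z : Type} [MeasurableSpace X] [MeasurableSpace Y] [MeasurableSpace Z]
  {μ : Measure X} {T : X → X}

omit [MeasurableSpace X] in
lemma A_eq (g : Fin m → X → ℂ) (x : X) (N : ℕ) : A (fun n => term T g n x) N =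
    (N : ℂ)⁻¹ * ∑ n ∈ Finset.Icc 1 N, ∏ j : Fin m, g j (T^[((j : ℕ) + 1) * n] x) := by
  rw [A]
  congr 1
  have h5 := Finset.sum_Ico_add' (fun n => ∏ j : Fin m, g j (T^[((j : ℕ) + 1) * n] x)) 0 N 1
  rw [Finset.range_eq_Ico]
  exact h5

lemma Cl.convAll (h : Cl m μ T) : ConvAll m μ T := by
  intro g hg hb
  filter_upwards [h g fun j => ⟨hg j, hb j⟩] with x hx
  obtain ⟨L, hL⟩ := hx
  exact ⟨L, hL.congr fun N => A_eq g x N⟩

lemma Cl.of_convAll (h : ConvAll m μ T) : Cl m μ T := by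
  intro g hg
  filter_upwards [h g (fun j => (hg j).1) fun j => (hg j).2] with x hx
  obtain ⟨L, hL⟩ := hx
  exact ⟨L, hL.congr fun N => (A_eq g x N).symm⟩

lemma Cl.memLp (hT : MeasurePreserving T μ μ) (h : Cl m μ T) {f : Fin m → X → ℂ}
    (hf : ∀ j, MemLp (f j) ∞ μ) :
    ∀ᵐ x ∂μ, ∃ L : ℂ, Tendsto (fun N : ℕ => (N : ℂ)⁻¹ * ∑ n ∈ Finset.Icc 1 N,
      ∏ j : Fin m, f j (T^[((j : ℕ) + 1) * n] x)) atTop (𝓝 L) := by
  choose g hg hfg using fun j => BM_of_memLp (hf j)
  have h4 : Cvg μ T f := Cvg_congr hT (fun j => (hfg j).symm) (h g hg)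
  filter_upwards [h4] with x hx
  obtain ⟨L, hL⟩ := hx
  exact ⟨L, hL.congr fun N => A_eq f x N⟩

/-- factors -/
lemma Cl.factor {ρ : Measure Z} {R : Z → Z} (hT : MeasurePreserving T μ μ) (hR : Measurable R)
    {π : X → Z} (hπ : MeasurePreserving π μ ρ) (hπT : ∀ᵐ x ∂μ, π (T x) = R (π x))
    (h : Cl m μ T) : Cl m ρ R := by
  intro g hg
  refine (Cvg_factor hT hR hπ hπT fun j => (hg j).1).mp (h _ fun j => ?_)
  obtain ⟨wm, C, hC⟩ := hg j
  exact ⟨wm.comp hπ.measurable, C, fun x => hC _⟩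

/-- tail extensions -/
lemma Cl.tail {V : Type} {𝒜 : MeasurableSpace V} [mV : MeasurableSpace V] {P : Measure V}
    [IsProbabilityMeasure P] {U : V → V} (hU : MeasurePreserving U P P)
    (h𝒜 : IsExhaustive P U 𝒜) {ρ : Measure Z} {R : Z → Z} (hR : MeasurePreserving R ρ ρ)
    {φ : V → Z} (hφ : MeasurePreserving φ P ρ) (hφT : ∀ᵐ x ∂P, φ (U x) = R (φ x))
    (htail : ∀ B, IsTailSet P U 𝒜 B → ∃ D, MeasurableSet D ∧ B =ᵐ[P] φ ⁻¹' D)
    (h : Cl m ρ R) : Cl m P U := by
  intro g hg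
  refine h𝒜.reduction hU (fun u hu huW => ?_) hg
  choose w hw huw using fun l => tail_fun hφ htail (hu l) (huW l)
  have h3 : Cvg P U (fun j => w j ∘ φ) :=
    (Cvg_factor hU hR.measurable hφ hφT fun j => (hw j).1).mpr (h w hw)
  exact Cvg_congr hU (fun j => (huw j).symm) h3

/-- mixtures -/
lemma Cl.mixture {Ω : Type} [MeasurableSpace Ω] {P : Measure Ω} {κ : Kernel Ω X}
    (hμ : μ = P.bind κ) (hT : Measurable T) {N : Set Ω} (hN : P N = 0)
    (h : ∀ ω, ω ∉ N → Cl m (κ ω) T) : Cl m μ T := by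
  intro g hg
  have hms : MeasurableSet {x | ∃ L : ℂ, Tendsto (A fun n => term T g n x) atTop (𝓝 L)} := by
    apply measurableSet_exists_tendsto
    intro N
    exact A_meas (fun n => term_meas hT (fun j => (hg j).1) n) N
  have hNae : ∀ᵐ ω ∂P, ω ∉ N := by
    rw [ae_iff]
    simpa using hN
  rw [hμ, Cvg]
  refine Measure.ae_comp_of_ae_ae hms ?_
  filter_upwards [hNae] with ω hω
  exact h ω hω g hg

/-- roots -/
lemma Cl.root [IsProbabilityMeasure μ] (hT : MeasurePreserving T μ μ) {k : ℕ} (hk : 1 ≤ k)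
    (h : Cl m μ T^[k]) : Cl m μ T := by
  intro g hg
  choose hgm C hC using hg
  have h1 : ∀ r : ℕ, ∀ᵐ x ∂μ, ∃ L : ℂ, Tendsto (A fun n => term T^[k]
      (fun j y => g j (T^[((j : ℕ) + 1) * r] y)) n x) atTop (𝓝 L) := by
    intro r
    exact h _ fun j => ⟨(hgm j).comp (hT.iterate _).measurable, C j, fun y => hC j _⟩
  filter_upwards [ae_all_iff.mpr h1] with x hx
  set u : ℕ → ℂ := fun n => ∏ j : Fin m, g j (T^[((j : ℕ) + 1) * n] x) with hu
  have hb : ∀ n, ‖u n‖ ≤ ∏ j : Fin m, C j := by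
    intro n
    rw [hu]
    show ‖∏ j : Fin m, g j (T^[((j : ℕ) + 1) * n] x)‖ ≤ _
    rw [norm_prod]
    exact Finset.prod_le_prod (fun _ _ => norm_nonneg _) fun j _ => hC j _
  have hb' : ∀ n, ‖u (n + 1)‖ ≤ ∏ j : Fin m, C j := fun n => hb (n + 1)
  have key := Pool.Agent.H922R3.TA.avg_classes (u := fun n => u (n + 1)) hb' hk (fun r => by
    -- `u (r + k n + 1)`, shift from the averages starting at `k (n + 1)`
    obtain ⟨L, hL⟩ := hx (r + 1)
    refine ⟨L, ?_⟩
    have e1 : ∀ n, term T^[k] (fun j y => g j (T^[((j : ℕ) + 1) * (r + 1)] y)) n x =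
        u (r + k * (n + 1) + 1) := by
      intro n
      unfold term
      rw [hu]
      show _ = ∏ j : Fin m, g j (T^[((j : ℕ) + 1) * (r + k * (n + 1) + 1)] x)
      refine Finset.prod_congr rfl fun j _ => ?_
      show g j (T^[((j : ℕ) + 1) * (r + 1)] ((T^[k])^[((j : ℕ) + 1) * (n + 1)] x)) = _
      rw [← Function.iterate_mul, ← Function.iterate_add_apply]
      congr 2
      ring
    have e2 : ∀ N : ℕ, (N : ℂ)⁻¹ * ∑ n ∈ Finset.range N, u (r + k * n + 1) =
        A (fun n => term T^[k] (fun j y => g j (T^[((j : ℕ) + 1) * (r + 1)] y)) n x) N +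
        (N : ℂ)⁻¹ * (u (r + k * 0 + 1) - u (r + k * N + 1)) := by
      intro N
      rw [A, ← mul_add]
      congr 1
      simp only [e1]
      have h5 := Finset.sum_range_succ' (fun n => u (r + k * n + 1)) N
      have h6 := Finset.sum_range_succ (fun n => u (r + k * n + 1)) N
      rw [h6] at h5
      linear_combination h5
    simp only [e2]
    have h7 : Tendsto (fun N : ℕ => (N : ℂ)⁻¹ * (u (r + k * 0 + 1) - u (r + k * N + 1))) atTop
        (𝓝 0) := by
      rw [tendsto_zero_iff_norm_tendsto_zero]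
      have hlim : Tendsto (fun N : ℕ => (N : ℝ)⁻¹ * (2 * ∏ j : Fin m, C j)) atTop (𝓝 0) := by
        have := (tendsto_inv_atTop_nhds_zero_nat (𝕜 := ℝ)).mul_const (2 * ∏ j : Fin m, C j)
        rwa [zero_mul] at this
      refine squeeze_zero (fun N => norm_nonneg _) (fun N => ?_) hlim
      rw [norm_mul, norm_inv, Complex.norm_natCast]
      refine mul_le_mul_of_nonneg_left ?_ (by positivity)
      refine (norm_sub_le _ _).trans ?_
      linarith [hb (r + k * 0 + 1), hb (r + k * N + 1)]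
    have := hL.add h7
    rwa [add_zero] at this)
  obtain ⟨L, hL⟩ := key
  exact ⟨L, hL⟩

/-- affine bijections of compact abelian groups -/
lemma Cl.affine {G : Type} [CommGroup G] [TopologicalSpace G] [IsTopologicalGroup G]
    [CompactSpace G] [T2Space G] [MeasurableSpace G] [BorelSpace G] {ν : Measure G}
    [ν.IsHaarMeasure] [IsProbabilityMeasure ν] {φ : Equiv.Perm G}
    (h : ∃ (α : G →ₜ* G) (c : G), ∀ x, φ x = α x * c) : Cl m ν (φ : G → G) := by
  intro g hg
  have h1 := Pool.Agent.TH784.AA.affine_conv (μ := ν) (d := 1) (k := 1) (n := m)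
    (T := fun _ => φ) (fun _ => h) (fun _ _ => Commute.refl _)
    (fun _ j => ((j : ℕ) : ℤ) + 1) (fun _ j _ => ((j : ℕ) : ℤ) + 1) (f := g)
    fun j => ⟨(hg j).1, (hg j).2⟩
  filter_upwards [h1] with x hx
  obtain ⟨L, hL⟩ := hx
  have hN : Tendsto (fun (N : ℕ) (_ : Fin 1) => N) atTop atTop :=
    tendsto_atTop_atTop.2 fun b => ⟨b 0, fun N hN j => by
      rw [Subsingleton.elim j 0]
      exact hN⟩
  refine ⟨L, (hL.comp hN).congr fun N => ?_⟩
  rw [Function.comp_apply, Pool.Agent.TH784.AA.bxc_eq, A]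
  congr 1
  · unfold Pool.Agent.TH784.AA.vol
    rw [Fin.prod_univ_one]
    push_cast
    rfl
  · refine Finset.sum_nbij' (fun m => m 0) (fun n _ => n) ?_ ?_ ?_ ?_ ?_
    · intro m hm
      rw [Pool.Agent.TH784.AA.mem_bxs] at hm
      exact Finset.mem_range.2 (hm 0)
    · intro n hn
      rw [Pool.Agent.TH784.AA.mem_bxs]
      intro _
      exact Finset.mem_range.1 hn
    · intro m _
      funext j
      rw [Subsingleton.elim j 0]
    · intro n _
      rfl
    · intro v _
      unfold term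
      refine Finset.prod_congr rfl fun j _ => ?_
      congr 1
      rw [Fin.sum_univ_one, List.ofFn_succ, List.ofFn_zero, List.prod_singleton]
      have e1 : ((((j : ℕ) : ℤ) + 1) + ((v 0 : ℕ) : ℤ) * (((j : ℕ) : ℤ) + 1)) =
          ((((j : ℕ) + 1) * (v 0 + 1) : ℕ) : ℤ) := by
        push_cast
        ring
      rw [e1, zpow_natCast, ← Equiv.Perm.iterate_eq_pow]

end Run7.h694.TW
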